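import Pool.Agent.Lib.MP_0087d5_lc.NEG.CDef

/-!
Definitions for the block theorem: the weight of the part of a circuit given by a set of gates.
-/

set_option autoImplicit false

namespace Pool.Agent.NEGD

open Pool.Agent.NEG

/-- the number of input wires of the non-plain gates of `X` of rank `j` -/
noncomputable def wiresOn {I G : Type} (C : Circuit I G) (X : Set G) (rk : G → ℕ) (j : ℕ) : ℕ :=
  Nat.card {p : Σ g, Fin (C.arity g) // p.1 ∈ X ∧ ¬ C.Plain p.1 ∧ rk p.1 = j}

/-- three bounds for the power of the non-plain gates of `X`: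
`m * 2 ^ t + 1` if at most `t` gates of `X` are non-plain and these have at most `m` inputs;
the product of `wiresOn C X rk j + 1` over all ranks `j`, for a rank function which weakly
increases along all wires between gates of `X` and strictly increases along those into
non-plain gates; the number of input wires of the non-plain gates of `X` plus one if `X` is a
formula (every gate of `X` feeds at most one wire into `X`) -/
def WeightOn {I G : Type} (C : Circuit I G) (X : Set G) (w : ℕ) : Prop :=
  (∃ t m : ℕ, {g | g ∈ X ∧ ¬ C.Plain g}.ncard ≤ t ∧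
    (∀ g ∈ X, ¬ C.Plain g → C.arity g ≤ m) ∧ w = m * 2 ^ t + 1) ∨
  (∃ (r : ℕ) (rk : G → ℕ),
    (∀ g ∈ X, ∀ g' ∈ X, ∀ i, C.src g i = Sum.inr g' →
      rk g' ≤ rk g ∧ (¬ C.Plain g → rk g' < rk g)) ∧
    (∀ g ∈ X, rk g < r) ∧ w = ∏ j ∈ Finset.range r, (wiresOn C X rk j + 1)) ∨
  ((∀ g ∈ X, ∀ p p' : Σ g, Fin (C.arity g), p.1 ∈ X → p'.1 ∈ X →
      C.src p.1 p.2 = Sum.inr g → C.src p'.1 p'.2 = Sum.inr g → p = p') ∧
    w = Nat.card {p : Σ g, Fin (C.arity g) // p.1 ∈ X ∧ ¬ C.Plain p.1} + 1)

/-- the gates whose value is not constant on the inputs which agree with `ρ` outside of `D` -/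
def Live {I G : Type} (C : Circuit I G) (D : Set I) (ρ : I → Bool) : Set G :=
  {g | ∃ (x y : I → Bool) (v w : G → Bool), (∀ e, e ∉ D → x e = ρ e ∧ y e = ρ e) ∧
    C.Consistent x v ∧ C.Consistent y w ∧ v g ≠ w g}

/-- the outputs of the circuit on the two inputs are different -/
def Apart {I G : Type} (C : Circuit I G) (x y : I → Bool) : Prop :=
  ∃ v w, C.Consistent x v ∧ C.Consistent y w ∧ v C.out ≠ w C.out

/-- the bipartite graph with the `n × n` biadjacency matrix `x` has a perfect matching -/
def PM (n : ℕ) (x : Fin n × Fin n → Bool) : Prop :=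
  ∃ σ : Equiv.Perm (Fin n), ∀ a, x (a, σ a) = true

end Pool.Agent.NEGD
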