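import Pool.Agent.Lib.MP_0087d5_lc.NEGQ.Emb

/-!
# Clouds

A set of `k` rows together with `k - 1` columns which are joined to all of these rows (and to
nothing else) acts as one row, the union of the `k` rows; the same for columns.
-/

set_option autoImplicit false

namespace Pool.Agent.NEGD

open Pool.Agent.NEG Pool.Agent.NEGS

section Abstract

/-- a bijection between the rows and the columns of a matrix along its ones -/
def PB {A B : Type} (m : A → B → Prop) : Prop := ∃ s : A ≃ B, ∀ a, m a (s a)

theorem pb_symm {A B : Type} (m : A → B → Prop) : PB (fun b a => m a b) ↔ PB m := by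
  constructor
  · rintro ⟨s, hs⟩
    refine ⟨s.symm, fun a => ?_⟩
    have h := hs (s.symm a)
    rwa [Equiv.apply_symm_apply] at h
  · rintro ⟨s, hs⟩
    refine ⟨s.symm, fun a => ?_⟩
    have h := hs (s.symm a)
    rwa [Equiv.apply_symm_apply] at h

theorem pb_congr {A B : Type} {m m' : A → B → Prop} (h : ∀ a b, m a b ↔ m' a b) :
    PB m ↔ PB m' := by
  have e : m = m' := by
    funext a b
    exact propext (h a b)
  rw [e]

/-- the matrix with the additional columns `E` -/
def rowM {A U B E : Type} (f : A → U) (ι : E → A) (m : A → B → Prop) (a : A) : B ⊕ E → Prop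
  | .inl b => m a b
  | .inr e => f a = f (ι e)

/-- the rows of a cloud act as one row -/
theorem pb_rows {A U B E : Type} [Finite A] [Fintype U] [Fintype B] (f : A → U) (rep : U → A)
    (hrep : ∀ u, f (rep u) = u) (ι : E → A) (hι : Function.Injective ι)
    (hι' : ∀ a, (∃ e, ι e = a) ↔ a ≠ rep (f a)) (m : A → B → Prop)
    (hcard : Fintype.card U = Fintype.card B) :
    PB (rowM f ι m) ↔ PB (fun u b => ∃ a, f a = u ∧ m a b) := by
  classical
  constructor
  · rintro ⟨s, hs⟩
    have hex : ∀ u, ∃ a, f a = u ∧ ∃ b, s a = Sum.inl b := by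
      intro u
      by_contra hcon
      push Not at hcon
      have h1 : ∀ a : {a // f a = u}, ∃ e, s a = Sum.inr e := by
        rintro ⟨a, ha⟩
        cases h : s a with
        | inl b => exact absurd h (hcon a ha b)
        | inr e => exact ⟨e, rfl⟩
      choose φ hφ using h1
      have h2 : ∀ a, f (ι (φ a)) = u := by
        intro a
        have h3 := hs a
        rw [hφ a] at h3
        change f a = f (ι (φ a)) at h3
        rw [← h3]
        exact a.2
      let ψ : {a // f a = u} → {a // f a = u} := fun a => ⟨ι (φ a), h2 a⟩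
      have hψ : Function.Injective ψ := by
        intro a a' h
        have h3 : φ a = φ a' := hι (congrArg Subtype.val h)
        have h4 : s a = s a' := by rw [hφ a, hφ a', h3]
        exact Subtype.ext (s.injective h4)
      obtain ⟨a, ha⟩ := (Finite.injective_iff_surjective.mp hψ) ⟨rep u, hrep u⟩
      have h3 : ι (φ a) = rep u := congrArg Subtype.val ha
      have h4 := (hι' (ι (φ a))).mp ⟨_, rfl⟩
      rw [h2 a] at h4
      exact h4 h3
    choose a ha t ht using hex
    have htinj : Function.Injective t := by
      intro u u' h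
      have h1 : s (a u) = s (a u') := by rw [ht u, ht u', h]
      have h2 := s.injective h1
      rw [← ha u, ← ha u', h2]
    have hbij : Function.Bijective t :=
      (Fintype.bijective_iff_injective_and_card t).mpr ⟨htinj, hcard⟩
    refine ⟨Equiv.ofBijective t hbij, fun u => ⟨a u, ha u, ?_⟩⟩
    have h1 := hs (a u)
    rw [ht u] at h1
    exact h1
  · rintro ⟨t, ht⟩
    choose c hc1 hc2 using ht
    let π : A → A := fun a => Equiv.swap (c (f a)) (rep (f a)) a
    have hfsw : ∀ (u : U) (a : A), f a = u → f (Equiv.swap (c u) (rep u) a) = u := by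
      intro u a ha
      by_cases h1 : a = c u
      · rw [h1, Equiv.swap_apply_left]
        exact hrep u
      · by_cases h2 : a = rep u
        · rw [h2, Equiv.swap_apply_right]
          exact hc1 u
        · rw [Equiv.swap_apply_of_ne_of_ne h1 h2]
          exact ha
    have hfπ : ∀ a, f (π a) = f a := fun a => hfsw (f a) a rfl
    have hππ : ∀ a, π (π a) = a := by
      intro a
      change Equiv.swap (c (f (π a))) (rep (f (π a))) (π a) = a
      rw [hfπ]
      exact Equiv.swap_apply_self _ _ _
    have hπinj : Function.Injective π := by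
      intro a a' h
      rw [← hππ a, ← hππ a', h]
    have hex : ∀ a, π a ≠ rep (f a) → ∃ e, ι e = π a := by
      intro a ha
      rw [hι', hfπ]
      exact ha
    let s : A → B ⊕ E := fun a =>
      if h : π a = rep (f a) then Sum.inl (t (f a)) else Sum.inr (hex a h).choose
    have hs1 : ∀ a, π a = rep (f a) → s a = Sum.inl (t (f a)) := fun a h => dif_pos h
    have hs2 : ∀ a, π a ≠ rep (f a) → ∃ e, s a = Sum.inr e ∧ ι e = π a := fun a h =>
      ⟨_, dif_neg h, (hex a h).choose_spec⟩
    have hsinj : Function.Injective s := by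
      intro a a' h
      by_cases h1 : π a = rep (f a)
      · by_cases h2 : π a' = rep (f a')
        · rw [hs1 a h1, hs1 a' h2] at h
          have h3 := t.injective (Sum.inl.inj h)
          apply hπinj
          rw [h1, h2, h3]
        · obtain ⟨e, he, -⟩ := hs2 a' h2
          rw [hs1 a h1, he] at h
          exact absurd h (by simp)
      · obtain ⟨e, he, he'⟩ := hs2 a h1
        by_cases h2 : π a' = rep (f a')
        · rw [hs1 a' h2, he] at h
          exact absurd h (by simp)
        · obtain ⟨e2, he2, he2'⟩ := hs2 a' h2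
          rw [he, he2] at h
          have h3 := Sum.inr.inj h
          apply hπinj
          rw [← he', ← he2', h3]
    have hπc : ∀ u, π (c u) = rep u := by
      intro u
      change Equiv.swap (c (f (c u))) (rep (f (c u))) (c u) = rep u
      rw [hc1, Equiv.swap_apply_left]
    have hssurj : Function.Surjective s := by
      rintro (b | e)
      · refine ⟨c (t.symm b), ?_⟩
        rw [hs1 _ (by rw [hπc, hc1]), hc1, Equiv.apply_symm_apply]
      · have h1 : π (π (ι e)) = ι e := hππ _
        have h2 : π (π (ι e)) ≠ rep (f (π (ι e))) := by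
          rw [h1, hfπ]
          exact (hι' _).mp ⟨e, rfl⟩
        obtain ⟨e', he', he''⟩ := hs2 _ h2
        refine ⟨π (ι e), ?_⟩
        rw [he']
        congr 1
        apply hι
        rw [he'', h1]
    refine ⟨Equiv.ofBijective s ⟨hsinj, hssurj⟩, fun a => ?_⟩
    change rowM f ι m a (s a)
    by_cases h1 : π a = rep (f a)
    · rw [hs1 a h1]
      have h2 : a = c (f a) := by
        apply hπinj
        rw [h1, hπc]
      change m a (t (f a))
      have h3 := hc2 (f a)
      rw [← h2] at h3
      exact h3
    · obtain ⟨e, he, he'⟩ := hs2 a h1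
      rw [he]
      change f a = f (ι e)
      rw [he', hfπ]

/-- the matrix with additional rows and columns -/
def cloudM {A B U W E F : Type} (f : A → U) (g : B → W) (ι : E → A) (κ : F → B)
    (m : A → B → Prop) : A ⊕ F → B ⊕ E → Prop
  | .inl a, .inl b => m a b
  | .inl a, .inr e => f a = f (ι e)
  | .inr e', .inl b => g b = g (κ e')
  | .inr _, .inr _ => False

theorem card_cloud {B W F : Type} [Fintype B] [Fintype W] [Fintype F] (g : B → W)
    (rep : W → B) (hrep : ∀ w, g (rep w) = w) (κ : F → B) (hκ : Function.Injective κ)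
    (hκ' : ∀ b, (∃ e, κ e = b) ↔ b ≠ rep (g b)) :
    Fintype.card W + Fintype.card F = Fintype.card B := by
  rw [← Fintype.card_sum]
  apply Fintype.card_of_bijective (f := Sum.elim rep κ)
  constructor
  · rintro (w | e) (w' | e') h
    · have : w = w' := by rw [← hrep w, ← hrep w']; exact congrArg g h
      rw [this]
    · change rep w = κ e' at h
      have h1 := (hκ' (κ e')).mp ⟨e', rfl⟩
      rw [← h, hrep] at h1
      exact absurd rfl h1
    · change κ e = rep w' at h
      have h1 := (hκ' (κ e)).mp ⟨e, rfl⟩
      rw [h, hrep] at h1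
      exact absurd rfl h1
    · exact congrArg Sum.inr (hκ h)
  · intro b
    by_cases h : b = rep (g b)
    · exact ⟨Sum.inl (g b), h.symm⟩
    · obtain ⟨e, he⟩ := (hκ' b).mpr h
      exact ⟨Sum.inr e, he⟩

/-- rows and columns of clouds act as one row and one column -/
theorem pb_cloud {A B U W E F : Type} [Fintype A] [Fintype B] [Fintype U] [Fintype W]
    [Fintype F] (f : A → U) (g : B → W) (rep : U → A) (rep' : W → B)
    (hrep : ∀ u, f (rep u) = u) (hrep' : ∀ w, g (rep' w) = w) (ι : E → A) (κ : F → B)
    (hι : Function.Injective ι) (hκ : Function.Injective κ)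
    (hι' : ∀ a, (∃ e, ι e = a) ↔ a ≠ rep (f a)) (hκ' : ∀ b, (∃ e, κ e = b) ↔ b ≠ rep' (g b))
    (m : A → B → Prop) (hcard : Fintype.card U = Fintype.card W) :
    PB (cloudM f g ι κ m) ↔ PB (fun u w => ∃ a b, f a = u ∧ g b = w ∧ m a b) := by
  classical
  let m1 : A ⊕ F → B → Prop := fun a b => cloudM f g ι κ m a (Sum.inl b)
  have h1 : PB (cloudM f g ι κ m) ↔
      PB (rowM (Sum.map f (id : F → F)) (fun e => (Sum.inl (ι e) : A ⊕ F)) m1) := by
    refine pb_congr (fun a b => ?_)
    rcases a with a | e' <;> rcases b with b | e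
    · exact Iff.rfl
    · change f a = f (ι e) ↔ Sum.inl (f a) = Sum.inl (f (ι e))
      exact Sum.inl_injective.eq_iff.symm
    · exact Iff.rfl
    · change False ↔ Sum.inr e' = Sum.inl (f (ι e))
      simp
  rw [h1, pb_rows (Sum.map f id) (Sum.map rep id) (by
      rintro (u | e)
      · exact congrArg Sum.inl (hrep u)
      · rfl) (fun e => (Sum.inl (ι e) : A ⊕ F)) (fun e e' h => hι (Sum.inl.inj h)) (by
      rintro (a | e)
      · change (∃ e, Sum.inl (ι e) = Sum.inl a) ↔ Sum.inl a ≠ Sum.inl (rep (f a))
        rw [Sum.inl_injective.ne_iff, ← hι' a]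
        simp
      · change (∃ e', Sum.inl (ι e') = Sum.inr e) ↔ Sum.inr e ≠ Sum.inr e
        simp) m1 (by
      rw [Fintype.card_sum, hcard]
      exact card_cloud g rep' hrep' κ hκ hκ')]
  rw [← pb_symm]
  have h2 : PB (fun b (u : U ⊕ F) => ∃ a, Sum.map f id a = u ∧ m1 a b) ↔
      PB (rowM g κ (fun b u => ∃ a, f a = u ∧ m a b)) := by
    refine pb_congr (fun b u => ?_)
    rcases u with u | e
    · change (∃ a, Sum.map f id a = Sum.inl u ∧ m1 a b) ↔ ∃ a, f a = u ∧ m a b
      constructor
      · rintro ⟨a | e, ha, hb⟩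
        · exact ⟨a, Sum.inl.inj ha, hb⟩
        · exact absurd ha (by simp)
      · rintro ⟨a, ha, hb⟩
        exact ⟨Sum.inl a, congrArg Sum.inl ha, hb⟩
    · change (∃ a, Sum.map f id a = Sum.inr e ∧ m1 a b) ↔ g b = g (κ e)
      constructor
      · rintro ⟨a | e', ha, hb⟩
        · exact absurd ha (by simp)
        · have : e' = e := Sum.inr.inj ha
          rw [← this]
          exact hb
      · intro h
        exact ⟨Sum.inr e, rfl, h⟩
  rw [h2, pb_rows g rep' hrep' κ hκ hκ' _ hcard.symm, ← pb_symm]
  refine pb_congr (fun u w => ?_)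
  constructor
  · rintro ⟨b, hb, a, ha, hm⟩
    exact ⟨a, b, ha, hb, hm⟩
  · rintro ⟨a, b, ha, hb, hm⟩
    exact ⟨b, hb, a, ha, hm⟩

end Abstract

section Big

/-- the matrix `m` on the first parts, the identity on the rest -/
def restM {A B Z : Type} (m : A → B → Prop) : A ⊕ Z → B ⊕ Z → Prop
  | .inl a, .inl b => m a b
  | .inr z, .inr z' => z = z'
  | _, _ => False

theorem pb_rest {A B Z : Type} [Fintype A] [Fintype B] (m : A → B → Prop)
    (hcard : Fintype.card A = Fintype.card B) : PB (restM (Z := Z) m) ↔ PB m := by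
  constructor
  · rintro ⟨s, hs⟩
    have key : ∀ a : A, ∃ b : B, s (Sum.inl a) = Sum.inl b ∧ m a b := by
      intro a
      have h1 := hs (Sum.inl a)
      cases h : s (Sum.inl a) with
      | inl b =>
          rw [h] at h1
          exact ⟨b, rfl, h1⟩
      | inr z =>
          rw [h] at h1
          exact h1.elim
    choose t ht hm using key
    have hinj : Function.Injective t := by
      intro a a' h
      have h1 : s (Sum.inl a) = s (Sum.inl a') := by rw [ht, ht, h]
      exact Sum.inl.inj (s.injective h1)
    exact ⟨Equiv.ofBijective t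
      ((Fintype.bijective_iff_injective_and_card t).mpr ⟨hinj, hcard⟩), hm⟩
  · rintro ⟨s, hs⟩
    refine ⟨Equiv.sumCongr s (Equiv.refl Z), fun a => ?_⟩
    rcases a with a | z
    · exact hs a
    · exact rfl

theorem pb_equiv {A B A' B' : Type} (m : A → B → Prop) (eA : A' ≃ A) (eB : B' ≃ B) :
    PB (fun a b => m (eA a) (eB b)) ↔ PB m := by
  constructor
  · rintro ⟨s, hs⟩
    refine ⟨(eA.symm.trans s).trans eB, fun a => ?_⟩
    have h : m (eA (eA.symm a)) (eB (s (eA.symm a))) := hs (eA.symm a)
    rw [Equiv.apply_symm_apply] at h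
    exact h
  · rintro ⟨s, hs⟩
    refine ⟨(eA.trans s).trans eB.symm, fun a => ?_⟩
    have h := hs (eA a)
    simp only [Equiv.trans_apply, Equiv.apply_symm_apply]
    exact h

/-- **the embedding of a logical matrix** -/
theorem exists_cloud (n r : ℕ) (hr : 0 < r) (f g : Fin n → Option (Fin r))
    (E : Fin r × Fin r → Fin n × Fin n)
    (hE : ∀ p, f (E p).1 = some p.1 ∧ g (E p).2 = some p.2)
    (hcard : (Finset.univ.filter (fun a => (f a).isSome = true)).card +
      (Finset.univ.filter (fun b => (g b).isSome = true)).card ≤ n + r) :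
    ∃ sub : Fin n × Fin n → (Fin r × Fin r) ⊕ Bool,
      (∀ e p, sub e = Sum.inl p → e = E p) ∧
      ∀ x : Fin r × Fin r → Bool, BPM n (pull sub x) ↔ BPM r x := by
  classical
  let o : Fin r := ⟨0, hr⟩
  let A : Type := {a : Fin n // (f a).isSome = true}
  let B : Type := {b : Fin n // (g b).isSome = true}
  let fA : A → Fin r := fun a => (f a.1).get a.2
  let gB : B → Fin r := fun b => (g b.1).get b.2
  have hfA : ∀ (a : A) (u : Fin r), fA a = u ↔ f a.1 = some u := by
    intro a u
    change (f a.1).get a.2 = u ↔ _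
    rw [Option.eq_some_iff_get_eq]
    exact ⟨fun h => ⟨a.2, h⟩, fun h => h.2⟩
  have hgB : ∀ (b : B) (w : Fin r), gB b = w ↔ g b.1 = some w := by
    intro b w
    change (g b.1).get b.2 = w ↔ _
    rw [Option.eq_some_iff_get_eq]
    exact ⟨fun h => ⟨b.2, h⟩, fun h => h.2⟩
  let rep : Fin r → A := fun u => ⟨(E (u, o)).1, by rw [(hE (u, o)).1]; rfl⟩
  let rep' : Fin r → B := fun w => ⟨(E (o, w)).2, by rw [(hE (o, w)).2]; rfl⟩
  have hrep : ∀ u, fA (rep u) = u := fun u => (hfA _ _).mpr (hE (u, o)).1
  have hrep' : ∀ w, gB (rep' w) = w := fun w => (hgB _ _).mpr (hE (o, w)).2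
  let EE : Type := {a : A // a ≠ rep (fA a)}
  let FF : Type := {b : B // b ≠ rep' (gB b)}
  let ι : EE → A := Subtype.val
  let κ : FF → B := Subtype.val
  have hι' : ∀ a, (∃ e, ι e = a) ↔ a ≠ rep (fA a) := by
    intro a
    constructor
    · rintro ⟨e, rfl⟩
      exact e.2
    · intro h
      exact ⟨⟨a, h⟩, rfl⟩
  have hκ' : ∀ b, (∃ e, κ e = b) ↔ b ≠ rep' (gB b) := by
    intro b
    constructor
    · rintro ⟨e, rfl⟩
      exact e.2
    · intro h
      exact ⟨⟨b, h⟩, rfl⟩
  have hcA : r + Fintype.card EE = Fintype.card A := by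
    have := card_cloud fA rep hrep ι Subtype.val_injective hι'
    rwa [Fintype.card_fin] at this
  have hcB : r + Fintype.card FF = Fintype.card B := by
    have := card_cloud gB rep' hrep' κ Subtype.val_injective hκ'
    rwa [Fintype.card_fin] at this
  have hcA' : Fintype.card A = (Finset.univ.filter (fun a => (f a).isSome = true)).card :=
    Fintype.card_subtype _
  have hcB' : Fintype.card B = (Finset.univ.filter (fun b => (g b).isSome = true)).card :=
    Fintype.card_subtype _
  have hcnA : Fintype.card {a : Fin n // ¬ (f a).isSome = true} = n - Fintype.card A := by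
    rw [Fintype.card_subtype_compl, Fintype.card_fin]
  have hcnB : Fintype.card {b : Fin n // ¬ (g b).isSome = true} = n - Fintype.card B := by
    rw [Fintype.card_subtype_compl, Fintype.card_fin]
  have hAn : Fintype.card A ≤ n := by
    have := Fintype.card_subtype_le (fun a : Fin n => (f a).isSome = true)
    rwa [Fintype.card_fin] at this
  have hBn : Fintype.card B ≤ n := by
    have := Fintype.card_subtype_le (fun b : Fin n => (g b).isSome = true)
    rwa [Fintype.card_fin] at this
  let Z : Type := Fin (n + r - Fintype.card A - Fintype.card B)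
  have e1 : {a : Fin n // ¬ (f a).isSome = true} ≃ FF ⊕ Z := by
    apply Fintype.equivOfCardEq
    rw [hcnA, Fintype.card_sum, Fintype.card_fin]
    omega
  have e2 : {b : Fin n // ¬ (g b).isSome = true} ≃ EE ⊕ Z := by
    apply Fintype.equivOfCardEq
    rw [hcnB, Fintype.card_sum, Fintype.card_fin]
    omega
  let eR : Fin n ≃ (A ⊕ FF) ⊕ Z :=
    (Equiv.sumCompl (fun a : Fin n => (f a).isSome = true)).symm.trans
      ((Equiv.sumCongr (Equiv.refl A) e1).trans (Equiv.sumAssoc A FF Z).symm)
  let eC : Fin n ≃ (B ⊕ EE) ⊕ Z :=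
    (Equiv.sumCompl (fun b : Fin n => (g b).isSome = true)).symm.trans
      ((Equiv.sumCongr (Equiv.refl B) e2).trans (Equiv.sumAssoc B EE Z).symm)
  have heR : ∀ (a : Fin n) (a' : A), eR a = Sum.inl (Sum.inl a') → a = a'.1 := by
    intro a a' h
    have h1 := (Equiv.eq_symm_apply eR).mpr h
    rw [h1]
    rfl
  have heC : ∀ (b : Fin n) (b' : B), eC b = Sum.inl (Sum.inl b') → b = b'.1 := by
    intro b b' h
    have h1 := (Equiv.eq_symm_apply eC).mpr h
    rw [h1]
    rfl
  let cell : (A ⊕ FF) ⊕ Z → (B ⊕ EE) ⊕ Z → (Fin r × Fin r) ⊕ Bool := fun x y =>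
    match x, y with
    | .inl (.inl a), .inl (.inl b) =>
        if E (fA a, gB b) = (a.1, b.1) then .inl (fA a, gB b) else .inr false
    | .inl (.inl a), .inl (.inr e) => .inr (decide (fA a = fA (ι e)))
    | .inl (.inr e), .inl (.inl b) => .inr (decide (gB b = gB (κ e)))
    | .inr z, .inr z' => .inr (decide (z = z'))
    | _, _ => .inr false
  refine ⟨fun e => cell (eR e.1) (eC e.2), ?_, fun x => ?_⟩
  · rintro ⟨a, b⟩ p hp
    change cell (eR a) (eC b) = Sum.inl p at hp
    rcases ha : eR a with (a' | e) | z <;> rcases hb : eC b with (b' | e') | z' <;>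
      rw [ha, hb] at hp
    · change (if E (fA a', gB b') = (a'.1, b'.1) then
        (Sum.inl (fA a', gB b') : (Fin r × Fin r) ⊕ Bool) else Sum.inr false) = Sum.inl p at hp
      split_ifs at hp with h
      · obtain rfl := Sum.inl.inj hp
        rw [h, heR a a' ha, heC b b' hb]
    all_goals exact absurd hp (by simp [cell])
  · have h1 : BPM n (pull (fun e : Fin n × Fin n => cell (eR e.1) (eC e.2)) x) ↔
        PB (fun a b => restM (Z := Z) (cloudM fA gB ι κ (fun a b =>
          E (fA a, gB b) = (a.1, b.1) ∧ x (fA a, gB b) = true)) (eR a) (eC b)) := by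
      have h2 : ∀ u v, pull (fun e : ((A ⊕ FF) ⊕ Z) × ((B ⊕ EE) ⊕ Z) => cell e.1 e.2) x (u, v)
          = true ↔ restM (Z := Z) (cloudM fA gB ι κ (fun a b =>
          E (fA a, gB b) = (a.1, b.1) ∧ x (fA a, gB b) = true)) u v := by
        intro u v
        unfold pull
        rcases u with (a' | e) | z <;> rcases v with (b' | e') | z'
        · by_cases h : E (fA a', gB b') = (a'.1, b'.1)
          · have hc : cell (Sum.inl (Sum.inl a')) (Sum.inl (Sum.inl b')) =
                Sum.inl (fA a', gB b') := if_pos h
            simp only [hc]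
            change x (fA a', gB b') = true ↔ (E (fA a', gB b') = (a'.1, b'.1) ∧
              x (fA a', gB b') = true)
            exact ⟨fun hx => ⟨h, hx⟩, fun hx => hx.2⟩
          · have hc : cell (Sum.inl (Sum.inl a')) (Sum.inl (Sum.inl b')) =
                Sum.inr false := if_neg h
            simp only [hc]
            change false = true ↔ (E (fA a', gB b') = (a'.1, b'.1) ∧
              x (fA a', gB b') = true)
            exact ⟨fun hx => absurd hx (by simp), fun hx => absurd hx.1 h⟩
        · change decide (fA a' = fA (ι e')) = true ↔ fA a' = fA (ι e')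
          exact decide_eq_true_iff
        · change false = true ↔ False
          simp
        · change decide (gB b' = gB (κ e)) = true ↔ gB b' = gB (κ e)
          exact decide_eq_true_iff
        · change false = true ↔ False
          simp
        · change false = true ↔ False
          simp
        · change false = true ↔ False
          simp
        · change false = true ↔ False
          simp
        · change decide (z = z') = true ↔ z = z'
          exact decide_eq_true_iff
      constructor
      · rintro ⟨σ, hσ⟩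
        exact ⟨σ, fun a => (h2 _ _).mp (hσ a)⟩
      · rintro ⟨σ, hσ⟩
        exact ⟨σ, fun a => (h2 _ _).mpr (hσ a)⟩
    rw [h1, pb_equiv (restM (Z := Z) (cloudM fA gB ι κ (fun a b =>
      E (fA a, gB b) = (a.1, b.1) ∧ x (fA a, gB b) = true))) eR eC, pb_rest _ (by
        rw [Fintype.card_sum, Fintype.card_sum]
        omega), pb_cloud fA gB rep rep' hrep hrep' ι κ Subtype.val_injective
        Subtype.val_injective hι' hκ' _ rfl]
    constructor
    · rintro ⟨σ, hσ⟩
      refine ⟨σ, fun u => ?_⟩
      obtain ⟨a, b, ha, hb, -, hx⟩ := hσ u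
      rw [ha, hb] at hx
      exact hx
    · rintro ⟨σ, hσ⟩
      refine ⟨σ, fun u => ?_⟩
      have hp := hE (u, σ u)
      let a : A := ⟨(E (u, σ u)).1, by rw [hp.1]; rfl⟩
      let b : B := ⟨(E (u, σ u)).2, by rw [hp.2]; rfl⟩
      have ha : fA a = u := (hfA _ _).mpr hp.1
      have hb : gB b = σ u := (hgB _ _).mpr hp.2
      refine ⟨a, b, ha, hb, ?_, ?_⟩
      · rw [ha, hb]
      · rw [ha, hb]
        exact hσ u

end Big

end Pool.Agent.NEGD
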