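import Mathlib

set_option autoImplicit false

/-!
# A colouring which shows all colours on all sets
-/

namespace Pool.Agent.NEGD

lemma Colr_bern1 (q k : ℕ) : q ^ (k + 1) + (k + 1) * q ^ k ≤ (q + 1) ^ (k + 1) := by
  induction k with
  | zero => simp
  | succ k ih =>
    have h1 : (q + 1) ^ (k + 1 + 1) = (q + 1) * (q + 1) ^ (k + 1) := by ring
    have h2 := Nat.mul_le_mul_left (q + 1) ih
    have h3 : (q + 1) * (q ^ (k + 1) + (k + 1) * q ^ k) =
        q ^ (k + 1 + 1) + (k + 1 + 1) * q ^ (k + 1) + (k + 1) * q ^ k := by ring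
    rw [h1]
    rw [h3] at h2
    omega

lemma Colr_bern (r : ℕ) (hr : 0 < r) : 2 * (r - 1) ^ r ≤ r ^ r := by
  obtain ⟨q, rfl⟩ : ∃ q, r = q + 1 := ⟨r - 1, by omega⟩
  simp only [Nat.add_sub_cancel]
  have h1 := Colr_bern1 q q
  have h2 : q ^ (q + 1) ≤ (q + 1) * q ^ q := by
    rw [pow_succ']
    exact Nat.mul_le_mul_right _ (by omega)
  omega

lemma Colr_pow {r t n y : ℕ} (hr : 0 < r) (hn : r * t ≤ n) (hy : n ≤ y) :
    2 ^ t * ((r - 1) ^ n * r ^ (y - n)) ≤ r ^ y := by
  have h1 : 2 ^ t * (r - 1) ^ (r * t) ≤ r ^ (r * t) := by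
    have := Nat.pow_le_pow_left (Colr_bern r hr) t
    rw [mul_pow, ← pow_mul, ← pow_mul] at this
    exact this
  have h2 : (r - 1) ^ (n - r * t) ≤ r ^ (n - r * t) := Nat.pow_le_pow_left (by omega) _
  have e1 : (r - 1) ^ n = (r - 1) ^ (r * t) * (r - 1) ^ (n - r * t) := by
    rw [← pow_add]
    congr 1
    omega
  have e2 : r ^ y = r ^ (r * t) * r ^ (n - r * t) * r ^ (y - n) := by
    rw [← pow_add, ← pow_add]
    congr 1
    omega
  rw [e1, e2]
  calc 2 ^ t * ((r - 1) ^ (r * t) * (r - 1) ^ (n - r * t) * r ^ (y - n))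
      = (2 ^ t * (r - 1) ^ (r * t)) * (r - 1) ^ (n - r * t) * r ^ (y - n) := by ring
    _ ≤ r ^ (r * t) * r ^ (n - r * t) * r ^ (y - n) :=
        Nat.mul_le_mul_right _ (Nat.mul_le_mul h1 h2)

/-- LEAF 1 (colouring): `r` sets of at least `r t` columns, `r ^ 2 < 2 ^ t`: some colouring with `r`
colours shows all colours on all sets -/
theorem exists_colouring {Y : Type} [Fintype Y] [DecidableEq Y] (r t : ℕ)
    (N : Fin r → Finset Y) (hN : ∀ i, r * t ≤ (N i).card) (ht : r ^ 2 < 2 ^ t) (hr : 0 < r) :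
    ∃ g : Y → Fin r, ∀ i j, ∃ b ∈ N i, g b = j := by
  classical
  by_contra hcon
  push Not at hcon
  set B : Fin r × Fin r → Finset (Y → Fin r) := fun p =>
    Fintype.piFinset (fun b => if b ∈ N p.1 then Finset.univ.erase p.2 else Finset.univ) with hB
  have hcov : (Finset.univ : Finset (Y → Fin r)) ⊆ Finset.univ.biUnion B := by
    intro g _
    obtain ⟨i, j, hij⟩ := hcon g
    rw [Finset.mem_biUnion]
    refine ⟨(i, j), Finset.mem_univ _, ?_⟩
    rw [hB, Fintype.mem_piFinset]
    intro b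
    dsimp only
    split_ifs with h
    · exact Finset.mem_erase.2 ⟨hij b h, Finset.mem_univ _⟩
    · exact Finset.mem_univ _
  have hBcard : ∀ p, (B p).card = (r - 1) ^ (N p.1).card * r ^ (Fintype.card Y - (N p.1).card) := by
    intro p
    rw [hB]
    dsimp only
    rw [Fintype.card_piFinset]
    have h1 : ∀ b, (if b ∈ N p.1 then (Finset.univ.erase p.2 : Finset (Fin r)) else Finset.univ).card =
        if b ∈ N p.1 then r - 1 else r := by
      intro b
      split_ifs
      · rw [Finset.card_erase_of_mem (Finset.mem_univ _), Finset.card_univ, Fintype.card_fin]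
      · rw [Finset.card_univ, Fintype.card_fin]
    rw [Finset.prod_congr rfl (fun b _ => h1 b), Finset.prod_ite, Finset.prod_const, Finset.prod_const]
    congr 2
    · congr 1
      ext b
      simp
    · have h2 : (Finset.univ.filter (fun b => b ∉ N p.1)) = (N p.1)ᶜ := by
        ext b
        simp
      rw [h2, Finset.card_compl]
  have h1 : r ^ Fintype.card Y ≤ ∑ p : Fin r × Fin r, (B p).card := by
    have h2 := Finset.card_le_card hcov
    rw [Finset.card_univ, Fintype.card_fun, Fintype.card_fin] at h2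
    exact h2.trans Finset.card_biUnion_le
  have h3 : 2 ^ t * ∑ p : Fin r × Fin r, (B p).card ≤ r ^ 2 * r ^ Fintype.card Y := by
    rw [Finset.mul_sum]
    calc ∑ p : Fin r × Fin r, 2 ^ t * (B p).card ≤ ∑ _p : Fin r × Fin r, r ^ Fintype.card Y := by
          apply Finset.sum_le_sum
          intro p _
          rw [hBcard]
          exact Colr_pow hr (hN p.1) (Finset.card_le_univ _)
      _ = r ^ 2 * r ^ Fintype.card Y := by
          rw [Finset.sum_const, Finset.card_univ, Fintype.card_prod, Fintype.card_fin, smul_eq_mul]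
          ring
  have h4 := (Nat.mul_le_mul_left (2 ^ t) h1).trans h3
  have h5 : 0 < r ^ Fintype.card Y := pow_pos hr _
  have h6 := Nat.le_of_mul_le_mul_right h4 h5
  omega

end Pool.Agent.NEGD
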