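import Mathlib

set_option autoImplicit false

/-!
# A quarter of the entries in a half of the rows and a half of the columns
-/

namespace Pool.Agent.NEGD

/-- LEAF 4 (halves) -/
theorem exists_halves (n : ℕ) (D : Finset (Fin n × Fin n)) :
    ∃ X Y : Finset (Fin n), X.card + Y.card ≤ n + 1 ∧
      D.card ≤ 4 * (D.filter (fun e => e.1 ∈ X ∧ e.2 ∈ Y)).card := by
  classical
  set A : Finset (Fin n) := Finset.univ.filter (fun i => 2 * i.val < n) with hA
  have hAc : 2 * A.card ≤ n + 1 := by
    have h1 : A.card ≤ (Finset.range ((n + 1) / 2)).card := by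
      apply Finset.card_le_card_of_injOn (fun i => i.val)
      · intro i hi
        rw [hA] at hi
        simp only [Finset.coe_filter, Finset.mem_univ, true_and, Set.mem_ofPred_eq] at hi
        simp only [Finset.coe_range, Set.mem_Iio]
        omega
      · intro i _ j _ h
        exact Fin.ext h
    rw [Finset.card_range] at h1
    omega
  have hAc' : 2 * Aᶜ.card ≤ n + 1 := by
    have h1 : n ≤ 2 * A.card := by
      have h2 : (Finset.range ((n + 1) / 2)).card ≤ A.card := by
        apply Finset.card_le_card_of_surjOn (fun i => i.val)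
        intro k hk
        simp only [Finset.coe_range, Set.mem_Iio] at hk
        refine ⟨⟨k, by omega⟩, ?_, rfl⟩
        rw [hA]
        simp only [Finset.coe_filter, Finset.mem_univ, true_and, Set.mem_ofPred_eq]
        omega
      rw [Finset.card_range] at h2
      omega
    rw [Finset.card_compl, Fintype.card_fin]
    omega
  have key : ∀ X Y : Finset (Fin n), 2 * X.card ≤ n + 1 → 2 * Y.card ≤ n + 1 →
      D.card ≤ 4 * (D.filter (fun e => e.1 ∈ X ∧ e.2 ∈ Y)).card →
      ∃ X Y : Finset (Fin n), X.card + Y.card ≤ n + 1 ∧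
      D.card ≤ 4 * (D.filter (fun e => e.1 ∈ X ∧ e.2 ∈ Y)).card :=
    fun X Y h1 h2 h3 => ⟨X, Y, by omega, h3⟩
  have hsum : D.card = (D.filter (fun e => e.1 ∈ A ∧ e.2 ∈ A)).card +
      (D.filter (fun e => e.1 ∈ A ∧ e.2 ∈ Aᶜ)).card +
      ((D.filter (fun e => e.1 ∈ Aᶜ ∧ e.2 ∈ A)).card +
      (D.filter (fun e => e.1 ∈ Aᶜ ∧ e.2 ∈ Aᶜ)).card) := by
    rw [← Finset.card_filter_add_card_filter_not (s := D) (fun e => e.1 ∈ A)]
    congr 1
    · rw [← Finset.card_filter_add_card_filter_not (s := D.filter (fun e => e.1 ∈ A)) (fun e => e.2 ∈ A),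
        Finset.filter_filter, Finset.filter_filter]
      simp only [Finset.mem_compl]
    · rw [← Finset.card_filter_add_card_filter_not (s := D.filter (fun e => ¬ e.1 ∈ A)) (fun e => e.2 ∈ A),
        Finset.filter_filter, Finset.filter_filter]
      simp only [Finset.mem_compl]
  by_cases h1 : D.card ≤ 4 * (D.filter (fun e => e.1 ∈ A ∧ e.2 ∈ A)).card
  · exact key A A hAc hAc h1
  by_cases h2 : D.card ≤ 4 * (D.filter (fun e => e.1 ∈ A ∧ e.2 ∈ Aᶜ)).card
  · exact key A Aᶜ hAc hAc' h2
  by_cases h3 : D.card ≤ 4 * (D.filter (fun e => e.1 ∈ Aᶜ ∧ e.2 ∈ A)).card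
  · exact key Aᶜ A hAc' hAc h3
  · exact key Aᶜ Aᶜ hAc' hAc' (by omega)

end Pool.Agent.NEGD
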