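import Mathlib

/-!
Disjoint sets of rows with large neighbourhoods.
-/

set_option autoImplicit false

namespace Pool.Agent.NEGD

section Rows

variable {X Y : Type} [Fintype X] [DecidableEq X] [Fintype Y] [DecidableEq Y]

/-- the columns seen by a set of rows -/
def nb (D : Finset (X × Y)) (C : Finset X) : Finset Y :=
  (D.filter (fun e => e.1 ∈ C)).image Prod.snd

/-- one set of rows -/
theorem one_cloud (D : Finset (X × Y)) (Δ s : ℕ)
    (hrow : ∀ a, (D.filter (fun e => e.1 = a)).card ≤ Δ)
    (hcol : ∀ b, (D.filter (fun e => e.2 = b)).card ≤ Δ) (hs : 0 < s) (hΔ : 0 < Δ)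
    (U : Finset X) (hU : 2 * s * Δ ≤ (D.filter (fun e => e.1 ∉ U)).card) :
    ∃ C : Finset X, Disjoint C U ∧ s ≤ (nb D C).card ∧
      (D.filter (fun e => e.1 ∈ C)).card ≤ 2 * (s + Δ) := by
  classical
  let good : Finset (Finset X) := Finset.univ.filter (fun C => Disjoint C U ∧
    (D.filter (fun e => e.1 ∈ C)).card ≤ 2 * (nb D C).card ∧ (nb D C).card ≤ s + Δ)
  have hne : good.Nonempty := by
    refine ⟨∅, ?_⟩
    simp [good, nb]
  obtain ⟨C, hC, hmax⟩ := Finset.exists_max_image good (fun C => (nb D C).card) hne
  obtain ⟨hC1, hC2, hC3⟩ := (Finset.mem_filter.mp hC).2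
  refine ⟨C, hC1, ?_, by omega⟩
  by_contra hlt
  push Not at hlt
  -- a row with many new columns
  have hex : ∃ a, a ∉ U ∧ 0 < (D.filter (fun e => e.1 = a)).card ∧
      (D.filter (fun e => e.1 = a)).card ≤
        2 * (D.filter (fun e => e.1 = a ∧ e.2 ∉ nb D C)).card := by
    by_contra hcon
    push Not at hcon
    have h1 : ∀ a ∈ (Finset.univ.filter (fun a => a ∉ U)),
        (D.filter (fun e => e.1 = a)).card ≤
          2 * (D.filter (fun e => e.1 = a ∧ e.2 ∈ nb D C)).card := by
      intro a ha
      have ha' := (Finset.mem_filter.mp ha).2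
      have h2 : (D.filter (fun e => e.1 = a)).card =
          (D.filter (fun e => e.1 = a ∧ e.2 ∈ nb D C)).card +
            (D.filter (fun e => e.1 = a ∧ e.2 ∉ nb D C)).card := by
        rw [← Finset.card_filter_add_card_filter_not (s := D.filter (fun e => e.1 = a))
          (fun e => e.2 ∈ nb D C), Finset.filter_filter, Finset.filter_filter]
      rcases Nat.eq_zero_or_pos (D.filter (fun e => e.1 = a)).card with h3 | h3
      · omega
      · have := hcon a ha' h3
        omega
    have h2 : (D.filter (fun e => e.1 ∉ U)).card =
        ∑ a ∈ Finset.univ.filter (fun a => a ∉ U), (D.filter (fun e => e.1 = a)).card := by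
      rw [Finset.card_eq_sum_card_fiberwise (f := Prod.fst)
        (t := Finset.univ.filter (fun a => a ∉ U)) (fun e he => by
          have := (Finset.mem_filter.mp he).2
          simp [this])]
      refine Finset.sum_congr rfl (fun a ha => ?_)
      have ha' := (Finset.mem_filter.mp ha).2
      rw [Finset.filter_filter]
      congr 1
      ext e
      simp only [Finset.mem_filter, and_congr_right_iff]
      intro _
      constructor
      · exact fun h => h.2
      · rintro rfl
        exact ⟨ha', rfl⟩
    have h3 : ∑ a ∈ Finset.univ.filter (fun a => a ∉ U),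
        (D.filter (fun e => e.1 = a ∧ e.2 ∈ nb D C)).card ≤
        (D.filter (fun e => e.2 ∈ nb D C)).card := by
      rw [Finset.card_eq_sum_card_fiberwise (s := D.filter (fun e => e.2 ∈ nb D C))
        (f := Prod.fst) (t := (Finset.univ : Finset X)) (fun e _ => by simp)]
      refine (Finset.sum_le_sum_of_subset_of_nonneg (Finset.filter_subset _ _)
        (fun _ _ _ => Nat.zero_le _)).trans (Finset.sum_le_sum (fun a _ => ?_))
      rw [Finset.filter_filter]
      refine Finset.card_le_card (fun e he => ?_)
      simp only [Finset.mem_filter] at he ⊢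
      exact ⟨he.1, he.2.2, he.2.1⟩
    have h4 : (D.filter (fun e => e.2 ∈ nb D C)).card ≤ (nb D C).card * Δ := by
      rw [Finset.card_eq_sum_card_fiberwise (f := Prod.snd) (t := nb D C) (fun e he => by
        exact_mod_cast (Finset.mem_filter.mp he).2)]
      rw [← smul_eq_mul]
      refine Finset.sum_le_card_nsmul _ _ _ (fun b _ => ?_)
      refine le_trans (Finset.card_le_card (fun e he => ?_)) (hcol b)
      simp only [Finset.mem_filter] at he ⊢
      exact ⟨he.1.1, he.2⟩
    have h5 := Finset.sum_le_sum h1
    rw [← h2, ← Finset.mul_sum] at h5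
    have h6 : (nb D C).card * Δ ≤ (s - 1) * Δ := Nat.mul_le_mul_right _ (by omega)
    have h7 : (s - 1) * Δ + Δ = s * Δ := by
      obtain ⟨s', rfl⟩ : ∃ s', s = s' + 1 := ⟨s - 1, by omega⟩
      rw [Nat.add_sub_cancel]
      ring
    have h8 : 2 * s * Δ = 2 * (s * Δ) := by ring
    omega
  obtain ⟨a, haU, ha1, ha2⟩ := hex
  have hnew : (nb D (insert a C)).card =
      (nb D C).card + (D.filter (fun e => e.1 = a ∧ e.2 ∉ nb D C)).card := by
    have e1 : nb D (insert a C) =
        nb D C ∪ (D.filter (fun e => e.1 = a ∧ e.2 ∉ nb D C)).image Prod.snd := by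
      ext b
      simp only [nb, Finset.mem_image, Finset.mem_filter, Finset.mem_union, Finset.mem_insert,
        Prod.exists, exists_eq_right]
      constructor
      · rintro ⟨x, h1, h2⟩
        by_cases h3 : ∃ a, (a, b) ∈ D ∧ a ∈ C
        · exact Or.inl h3
        · rcases h2 with rfl | h2
          · exact Or.inr ⟨x, h1, rfl, h3⟩
          · exact absurd ⟨x, h1, h2⟩ h3
      · rintro (⟨x, h1, h2⟩ | ⟨x, h1, rfl, _⟩)
        · exact ⟨x, h1, Or.inr h2⟩
        · exact ⟨x, h1, Or.inl rfl⟩
    rw [e1, Finset.card_union_of_disjoint, Finset.card_image_of_injOn]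
    · intro e he e' he' h
      simp only [Finset.coe_filter, Set.mem_ofPred_eq] at he he'
      exact Prod.ext (he.2.1.trans he'.2.1.symm) h
    · rw [Finset.disjoint_left]
      intro b hb hb'
      obtain ⟨e, he, rfl⟩ := Finset.mem_image.mp hb'
      exact (Finset.mem_filter.mp he).2.2 hb
  have hdeg : (D.filter (fun e => e.1 ∈ insert a C)).card ≤
      (D.filter (fun e => e.1 ∈ C)).card + (D.filter (fun e => e.1 = a)).card := by
    refine le_trans (Finset.card_le_card ?_) (Finset.card_union_le _ _)
    intro e he
    simp only [Finset.mem_filter, Finset.mem_insert, Finset.mem_union] at he ⊢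
    rcases he with ⟨h1, rfl | h2⟩
    · exact Or.inr ⟨h1, rfl⟩
    · exact Or.inl ⟨h1, h2⟩
  have hle : (D.filter (fun e => e.1 = a ∧ e.2 ∉ nb D C)).card ≤ Δ := by
    refine le_trans (Finset.card_le_card (fun e he => ?_)) (hrow a)
    simp only [Finset.mem_filter] at he ⊢
    exact ⟨he.1, he.2.1⟩
  have hgood : insert a C ∈ good := by
    refine Finset.mem_filter.mpr ⟨Finset.mem_univ _, ?_, ?_, ?_⟩
    · rw [Finset.disjoint_insert_left]
      exact ⟨haU, hC1⟩
    · omega
    · omega
  have := hmax _ hgood
  omega

/-- disjoint sets of rows with large neighbourhoods -/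
theorem exists_rows (D : Finset (X × Y)) (Δ r s : ℕ)
    (hrow : ∀ a, (D.filter (fun e => e.1 = a)).card ≤ Δ)
    (hcol : ∀ b, (D.filter (fun e => e.2 = b)).card ≤ Δ)
    (hm : 2 * r * (s + Δ) + 2 * s * Δ ≤ D.card) (hs : 0 < s) (hΔ : 0 < Δ) :
    ∃ f : X → Option (Fin r), ∀ i : Fin r,
      s ≤ ((D.filter (fun e => f e.1 = some i)).image Prod.snd).card := by
  classical
  have key : ∀ k ≤ r, ∃ f : X → Option ℕ,
      (∀ i < k, s ≤ ((D.filter (fun e => f e.1 = some i)).image Prod.snd).card) ∧
      (∀ a i, f a = some i → i < k) ∧
      (D.filter (fun e => (f e.1).isSome = true)).card ≤ k * (2 * (s + Δ)) := by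
    intro k
    induction k with
    | zero =>
        intro _
        exact ⟨fun _ => none, fun i hi => absurd hi (Nat.not_lt_zero _), fun a i h => by simp at h,
          by simp⟩
    | succ k ih =>
        intro hk
        obtain ⟨f, h1, h2, h3⟩ := ih (by omega)
        let U : Finset X := Finset.univ.filter (fun a => (f a).isSome = true)
        have hU : 2 * s * Δ ≤ (D.filter (fun e => e.1 ∉ U)).card := by
          have h4 := Finset.card_filter_add_card_filter_not (s := D) (fun e => e.1 ∈ U)
          have h5 : (D.filter (fun e => e.1 ∈ U)).card ≤ k * (2 * (s + Δ)) := by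
            refine le_trans (Finset.card_le_card (fun e he => ?_)) h3
            simp only [Finset.mem_filter, Finset.mem_univ, true_and, U] at he ⊢
            exact he
          have h6 : k * (2 * (s + Δ)) ≤ 2 * r * (s + Δ) := by
            calc k * (2 * (s + Δ)) ≤ r * (2 * (s + Δ)) := Nat.mul_le_mul_right _ (by omega)
              _ = 2 * r * (s + Δ) := by ring
          omega
        obtain ⟨C, hC1, hC2, hC3⟩ := one_cloud D Δ s hrow hcol hs hΔ U hU
        have hCU : ∀ a ∈ C, f a = none := by
          intro a ha
          have h4 := Finset.disjoint_left.mp hC1 ha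
          simp only [U, Finset.mem_filter, Finset.mem_univ, true_and] at h4
          simpa using h4
        refine ⟨fun a => if a ∈ C then some k else f a, fun i hi => ?_, fun a i h => ?_, ?_⟩
        · rcases Nat.lt_or_ge i k with hik | hik
          · refine le_trans (h1 i hik) (Finset.card_le_card (Finset.image_subset_image
              (fun e he => ?_)))
            simp only [Finset.mem_filter] at he ⊢
            refine ⟨he.1, ?_⟩
            have h4 : e.1 ∉ C := by
              intro h5
              rw [hCU _ h5] at he
              exact absurd he.2 (by simp)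
            rw [if_neg h4]
            exact he.2
          · obtain rfl : i = k := by omega
            refine le_trans hC2 (Finset.card_le_card (Finset.image_subset_image
              (fun e he => ?_)))
            simp only [Finset.mem_filter] at he ⊢
            exact ⟨he.1, by rw [if_pos he.2]⟩
        · change (if a ∈ C then some k else f a) = some i at h
          by_cases h4 : a ∈ C
          · rw [if_pos h4] at h
            have := Option.some.inj h
            omega
          · rw [if_neg h4] at h
            exact lt_trans (h2 a i h) (Nat.lt_succ_self k)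
        · have h4 : (D.filter (fun e => ((if e.1 ∈ C then some k else f e.1).isSome = true))) ⊆
              (D.filter (fun e => (f e.1).isSome = true)) ∪ (D.filter (fun e => e.1 ∈ C)) := by
            intro e he
            simp only [Finset.mem_filter, Finset.mem_union] at he ⊢
            by_cases h5 : e.1 ∈ C
            · exact Or.inr ⟨he.1, h5⟩
            · rw [if_neg h5] at he
              exact Or.inl he
          refine (Finset.card_le_card h4).trans ((Finset.card_union_le _ _).trans ?_)
          rw [Nat.add_mul, Nat.one_mul]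
          omega
  obtain ⟨f, h1, h2, -⟩ := key r le_rfl
  refine ⟨fun a => (f a).bind (fun i => if h : i < r then some ⟨i, h⟩ else none), fun i => ?_⟩
  refine le_trans (h1 i i.2) (Finset.card_le_card (Finset.image_subset_image (fun e he => ?_)))
  simp only [Finset.mem_filter] at he ⊢
  refine ⟨he.1, ?_⟩
  rw [he.2]
  simp

end Rows

end Pool.Agent.NEGD
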