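import Pool.Agent.Lib.MP_0087d5_lc.NEGD.Wt
import Pool.Agent.Lib.MP_0087d5_lc.NEGD.Rows
import Pool.Agent.Lib.MP_0087d5_lc.NEGD.Colr
import Pool.Agent.Lib.MP_0087d5_lc.NEGD.Cloud
import Pool.Agent.Lib.MP_0087d5_lc.NEGD.Halves

/-!
The theorem for arbitrary sets of entries.
-/

set_option autoImplicit false

namespace Pool.Agent.NEGD

open Pool.Agent.NEG Pool.Agent.NEGS Pool.Agent.NEGT Pool.Agent.NEGV

open Classical in
/-- the family given by one logical matrix -/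
theorem fam_logical {n s l0 r : ℕ} (hl0 : 1 ≤ l0) (hs : s + n < 2 ^ l0) (hrn : r ≤ n)
    (hr : 4 * ((2 ^ 38 * l0) ^ 8) ^ 2 ≤ r) {D : Set (Fin n × Fin n)}
    (sub : Fin n × Fin n → (Fin r × Fin r) ⊕ Bool) (hsub : ∀ e p, sub e = Sum.inl p → e ∈ D)
    (hpm : ∀ x : Fin r × Fin r → Bool, BPM n (pull sub x) ↔ BPM r x) :
    Fam n s l0 (r ^ 2) (640 * (2 ^ 38 * l0) ^ 24) D := by
  obtain ⟨Ix, i1, i2, P, N, h1, h2, h3, h4⟩ := core_big (n := r) (s := s) hl0 (by omega) hr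
  refine ⟨Fin r × Fin r, sub, Ix, i1, i2, P, N, ?_, h1, fun i => (hpm _).mpr (h2 i),
    fun i h => h3 i ((hpm _).mp h), ?_⟩
  · intro e he
    cases h : sub e with
    | inl p => exact absurd (hsub e p h) he
    | inr c => exact ⟨c, rfl⟩
  · intro G _ C l hG c hq hc
    exact h4 (Fin r × Fin r) G Sum.inl C l hG c hq hc

/-- a logical matrix inside of a set of entries -/
theorem exists_logical {n L : ℕ} (hL : n < 2 ^ L) {D : Finset (Fin n × Fin n)} {Δ r r' : ℕ}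
    (hr' : 0 < r') (hrr : 32 * L * r' ≤ r) (hrn : r' ≤ n)
    (hrow : ∀ a, (D.filter (fun e => e.1 = a)).card ≤ Δ)
    (hcol : ∀ b, (D.filter (fun e => e.2 = b)).card ≤ Δ) (h1 : r ^ 2 ≤ D.card)
    (h2 : r * Δ ≤ D.card) :
    ∃ sub : Fin n × Fin n → (Fin r' × Fin r') ⊕ Bool,
      (∀ e p, sub e = Sum.inl p → e ∈ D) ∧
      ∀ x : Fin r' × Fin r' → Bool, BPM n (pull sub x) ↔ BPM r' x := by
  classical
  have hL0 : 0 < L := by
    rcases Nat.eq_zero_or_pos L with h | h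
    · rw [h] at hL
      omega
    · exact h
  obtain ⟨X, Y, hXY, hD4⟩ := exists_halves n D
  set D' := D.filter (fun e => e.1 ∈ X ∧ e.2 ∈ Y) with hD'
  have hsub : D' ⊆ D := Finset.filter_subset _ _
  have hrow' : ∀ a, (D'.filter (fun e => e.1 = a)).card ≤ Δ := fun a =>
    (Finset.card_le_card (Finset.filter_subset_filter _ hsub)).trans (hrow a)
  have hcol' : ∀ b, (D'.filter (fun e => e.2 = b)).card ≤ Δ := fun b =>
    (Finset.card_le_card (Finset.filter_subset_filter _ hsub)).trans (hcol b)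
  have hDpos : 0 < D.card := by
    have h3 : 0 < r := by
      have : 0 < 32 * L * r' := by positivity
      omega
    have : 0 < r ^ 2 := by positivity
    omega
  have hΔ : 0 < Δ := by
    obtain ⟨e, he⟩ := Finset.card_pos.mp hDpos
    refine lt_of_lt_of_le (Finset.card_pos.mpr ⟨e, ?_⟩) (hrow e.1)
    simp [he]
  -- the numbers
  have hnum : 2 * r' * (r' * (2 * L) + Δ) + 2 * (r' * (2 * L)) * Δ ≤ D'.card := by
    obtain ⟨A, hA⟩ : ∃ A, A = r' * L := ⟨_, rfl⟩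
    have h3 : r' ≤ A := by
      rw [hA]
      exact Nat.le_mul_of_pos_right _ hL0
    have h4 : 32 * A ≤ r := by
      rw [hA]
      calc 32 * (r' * L) = 32 * L * r' := by ring
        _ ≤ r := hrr
    have h5 : 1024 * (A * A) ≤ D.card := by
      calc 1024 * (A * A) = (32 * A) * (32 * A) := by ring
        _ ≤ r * r := Nat.mul_le_mul h4 h4
        _ = r ^ 2 := by ring
        _ ≤ D.card := h1
    have h6 : 32 * (A * Δ) ≤ D.card := by
      calc 32 * (A * Δ) = (32 * A) * Δ := by ring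
        _ ≤ r * Δ := Nat.mul_le_mul_right _ h4
        _ ≤ D.card := h2
    have h7 : r' * A ≤ A * A := Nat.mul_le_mul_right _ h3
    have h8 : r' * Δ ≤ A * Δ := Nat.mul_le_mul_right _ h3
    have h9 : 2 * r' * (r' * (2 * L) + Δ) + 2 * (r' * (2 * L)) * Δ =
        4 * (r' * A) + 2 * (r' * Δ) + 4 * (A * Δ) := by
      rw [hA]
      ring
    rw [h9]
    omega
  have hs0 : 0 < r' * (2 * L) := by positivity
  obtain ⟨f, hf⟩ := exists_rows D' Δ r' (r' * (2 * L)) hrow' hcol' hnum hs0 hΔ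
  obtain ⟨g, hg⟩ := exists_colouring r' (2 * L)
    (fun i => (D'.filter (fun e => f e.1 = some i)).image Prod.snd) hf (by
      calc r' ^ 2 < (2 ^ L) ^ 2 := Nat.pow_lt_pow_left (by omega) (by norm_num)
        _ = 2 ^ (2 * L) := by rw [← pow_mul, Nat.mul_comm]) hr'
  have hex : ∀ p : Fin r' × Fin r', ∃ e ∈ D', f e.1 = some p.1 ∧ g e.2 = p.2 := by
    intro p
    obtain ⟨b, hb, hgb⟩ := hg p.1 p.2
    obtain ⟨e, he, rfl⟩ := Finset.mem_image.mp hb
    exact ⟨e, (Finset.mem_filter.mp he).1, (Finset.mem_filter.mp he).2, hgb⟩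
  choose E hE1 hE2 hE3 using hex
  obtain ⟨sub, hsub1, hsub2⟩ := exists_cloud n r' hr'
    (fun a => if a ∈ X then f a else none) (fun b => if b ∈ Y then some (g b) else none) E
    (fun p => by
      have h3 := (Finset.mem_filter.mp (hE1 p)).2
      simp only [h3.1, h3.2, if_true]
      exact ⟨hE2 p, congrArg some (hE3 p)⟩) (by
      have h3 : (Finset.univ.filter (fun a => ((if a ∈ X then f a else none).isSome
          = true))).card ≤ X.card := by
        refine Finset.card_le_card (fun a ha => ?_)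
        have h4 := (Finset.mem_filter.mp ha).2
        by_contra h5
        rw [if_neg h5] at h4
        exact absurd h4 (by simp)
      have h4 : (Finset.univ.filter (fun b => ((if b ∈ Y then some (g b) else none).isSome
          = true))).card ≤ Y.card := by
        refine Finset.card_le_card (fun b hb => ?_)
        have h4 := (Finset.mem_filter.mp hb).2
        by_contra h5
        rw [if_neg h5] at h4
        exact absurd h4 (by simp)
      omega)
  exact ⟨sub, fun e p h => by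
    rw [hsub1 e p h]
    exact hsub (hE1 p), hsub2⟩

/-- **the theorem for arbitrary sets of entries** -/
theorem main_D : ∃ K : ℕ, ∀ (n s r Δ : ℕ) (D : Finset (Fin n × Fin n)), 0 < r →
    (∀ a, (D.filter (fun e => e.1 = a)).card ≤ Δ ∧ (D.filter (fun e => e.2 = a)).card ≤ Δ) →
    r ^ 2 ≤ D.card → r * Δ ≤ D.card →
    ∃ (M : ℕ) (P N : Fin M → Fin n × Fin n → Bool) (ρ : Fin n × Fin n → Bool), 1 ≤ M ∧
      (∀ i, (∀ e, N i e = true → P i e = true) ∧
        (∀ e, e ∉ D → P i e = ρ e ∧ N i e = ρ e) ∧ PM n (P i) ∧ ¬ PM n (N i)) ∧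
      ∀ (G : Type) [Finite G] (C : Circuit (Fin n × Fin n) G), (∃ d, C.DepthLE d) →
        (Live C ↑D ρ).ncard ≤ s → ∀ w : ℕ, WeightOn C (Live C ↑D ρ) w →
        r ^ 2 * {i | Apart C (P i) (N i)}.ncard ≤
          K * w * (Nat.log 2 (s + n) + 1) ^ 34 * M := by
  classical
  obtain ⟨a, ha⟩ : ∃ a : ℕ, a = 2 ^ 38 := ⟨_, rfl⟩
  refine ⟨4096 * (18 * 640 + 1) * a ^ 32, fun n s r Δ D hr0 hdeg h1 h2 => ?_⟩
  obtain ⟨l0, hl0d⟩ : ∃ l0, l0 = Nat.log 2 (s + n) + 1 := ⟨_, rfl⟩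
  have hl0 : 1 ≤ l0 := by omega
  have hs : s + n < 2 ^ l0 := by
    rw [hl0d]
    exact Nat.lt_pow_succ_log_self (by norm_num) (s + n)
  rw [← hl0d]
  have ha1 : 1 ≤ a := by
    rw [ha]
    exact Nat.one_le_two_pow
  have hal0 : 1 ≤ a * l0 := Nat.mul_pos ha1 hl0
  have hrn : r ≤ n := by
    have h3 : D.card ≤ n ^ 2 := by
      refine (Finset.card_le_univ D).trans ?_
      rw [Fintype.card_prod, Fintype.card_fin]
      exact le_of_eq (sq n).symm
    exact (Nat.pow_le_pow_iff_left (by norm_num)).mp (h1.trans h3)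
  obtain ⟨r', hr'⟩ : ∃ r', r' = r / (32 * l0) := ⟨_, rfl⟩
  have hpos : 0 < 32 * l0 := by omega
  have hlt : r < 32 * l0 * (r' + 1) := by
    rw [hr']
    exact Nat.lt_mul_div_succ r hpos
  have hle : 32 * l0 * r' ≤ r := by
    rw [hr']
    exact Nat.mul_div_le r _
  rcases Nat.lt_or_ge r' (4 * ((2 ^ 38 * l0) ^ 8) ^ 2) with hr | hr
  · -- few variables
    have hDpos : 0 < D.card := lt_of_lt_of_le (by positivity) h1
    obtain ⟨e0, he0⟩ := Finset.card_pos.mp hDpos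
    obtain ⟨P, N, h3, h4, h5, h6⟩ := one_pair e0
    refine ⟨1, fun _ => P, fun _ => N, P, le_rfl, fun i => ⟨h3, fun e he => ⟨rfl, h4 e ?_⟩,
      h5, h6⟩, ?_⟩
    · rintro rfl
      exact he he0
    · intro G _ C _ _ w hw
      have h7 : {i : Fin 1 | Apart C P N}.ncard ≤ 1 := by
        refine (Set.ncard_le_ncard (Set.subset_univ _) (Set.toFinite _)).trans ?_
        rw [Set.ncard_univ, Nat.card_eq_fintype_card, Fintype.card_fin]
      rw [← ha] at hr
      have h8 : r ≤ 32 * l0 * (4 * ((a * l0) ^ 8) ^ 2) :=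
        hlt.le.trans (Nat.mul_le_mul_left _ hr)
      have h9 : r ^ 2 ≤ 16384 * a ^ 32 * l0 ^ 34 := by
        calc r ^ 2 ≤ (32 * l0 * (4 * ((a * l0) ^ 8) ^ 2)) ^ 2 := Nat.pow_le_pow_left h8 2
          _ = 16384 * a ^ 32 * l0 ^ 34 := by ring
      refine (Nat.mul_le_mul h9 h7).trans ?_
      rw [Nat.mul_one, Nat.mul_one]
      refine Nat.mul_le_mul_right _ ?_
      calc 16384 * a ^ 32 = 16384 * a ^ 32 * 1 := (Nat.mul_one _).symm
        _ ≤ 4096 * (18 * 640 + 1) * a ^ 32 * w :=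
            Nat.mul_le_mul (Nat.mul_le_mul_right _ (by norm_num)) (weightOn_pos hw)
  · -- the main case
    have hr'0 : 0 < r' := by
      refine lt_of_lt_of_le ?_ hr
      positivity
    have hr'n : r' ≤ n := by
      refine le_trans ?_ (hle.trans hrn)
      exact Nat.le_mul_of_pos_left _ hpos
    obtain ⟨sub, hsub1, hsub2⟩ := exists_logical (L := l0) (by omega) hr'0 hle hr'n
      (fun a => (hdeg a).1) (fun a => (hdeg a).2) h1 h2
    have hfam := fam_logical (D := (D : Set (Fin n × Fin n))) hl0 hs hr'n hr sub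
      (fun e p h => Finset.mem_coe.mpr (hsub1 e p h)) hsub2
    have hA : r' ^ 2 ≤ 2 ^ (2 * l0) := by
      calc r' ^ 2 ≤ (2 ^ l0) ^ 2 := Nat.pow_le_pow_left (by omega) 2
        _ = 2 ^ (2 * l0) := by rw [← pow_mul, Nat.mul_comm]
    obtain ⟨M, P, N, ρ, hM, h3, h4⟩ := of_fam hl0 hA hfam
    refine ⟨M, P, N, ρ, hM, fun i => ⟨(h3 i).1, fun e he => (h3 i).2.1 e (by
      rw [Finset.mem_coe]
      exact he), (h3 i).2.2⟩, ?_⟩
    intro G _ C hC hcard w hw
    have h5 := h4 ↑D (fun e he => he) G C hC hcard w hw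
    set F := {i | Apart C (P i) (N i)}.ncard
    have h6 : r ≤ 64 * l0 * r' := by
      have : r' + 1 ≤ 2 * r' := by omega
      calc r ≤ 32 * l0 * (r' + 1) := hlt.le
        _ ≤ 32 * l0 * (2 * r') := Nat.mul_le_mul_left _ this
        _ = 64 * l0 * r' := by ring
    have h7 : r ^ 2 ≤ 4096 * l0 ^ 2 * r' ^ 2 := by
      calc r ^ 2 ≤ (64 * l0 * r') ^ 2 := Nat.pow_le_pow_left h6 2
        _ = 4096 * l0 ^ 2 * r' ^ 2 := by ring
    have h8 : 18 * (640 * (2 ^ 38 * l0) ^ 24) + 1 ≤ (18 * 640 + 1) * a ^ 32 * l0 ^ 32 := by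
      rw [← ha]
      have h9 : (a * l0) ^ 24 ≤ (a * l0) ^ 32 := Nat.pow_le_pow_right hal0 (by norm_num)
      have h10 : 1 ≤ (a * l0) ^ 32 := Nat.one_le_pow _ _ hal0
      calc 18 * (640 * (a * l0) ^ 24) + 1 ≤ 18 * (640 * (a * l0) ^ 32) + (a * l0) ^ 32 := by
            omega
        _ = (18 * 640 + 1) * a ^ 32 * l0 ^ 32 := by ring
    calc r ^ 2 * F ≤ 4096 * l0 ^ 2 * r' ^ 2 * F := Nat.mul_le_mul_right _ h7
      _ = 4096 * l0 ^ 2 * (r' ^ 2 * F) := by ring
      _ ≤ 4096 * l0 ^ 2 * ((18 * (640 * (2 ^ 38 * l0) ^ 24) + 1) * w * M) :=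
          Nat.mul_le_mul_left _ h5
      _ ≤ 4096 * l0 ^ 2 * (((18 * 640 + 1) * a ^ 32 * l0 ^ 32) * w * M) := by gcongr
      _ = 4096 * (18 * 640 + 1) * a ^ 32 * w * l0 ^ 34 * M := by ring

/-- **the theorem for sets of entries with at most `√|D|` entries in each row and column** -/
theorem main_sqrt : ∃ K : ℕ, ∀ (n s : ℕ) (D : Finset (Fin n × Fin n)), D.Nonempty →
    (∀ a, (D.filter (fun e => e.1 = a)).card ^ 2 ≤ D.card ∧
      (D.filter (fun e => e.2 = a)).card ^ 2 ≤ D.card) →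
    ∃ (M : ℕ) (P N : Fin M → Fin n × Fin n → Bool) (ρ : Fin n × Fin n → Bool), 1 ≤ M ∧
      (∀ i, (∀ e, N i e = true → P i e = true) ∧
        (∀ e, e ∉ D → P i e = ρ e ∧ N i e = ρ e) ∧ PM n (P i) ∧ ¬ PM n (N i)) ∧
      ∀ (G : Type) [Finite G] (C : Circuit (Fin n × Fin n) G), (∃ d, C.DepthLE d) →
        (Live C ↑D ρ).ncard ≤ s → ∀ w : ℕ, WeightOn C (Live C ↑D ρ) w →
        D.card * {i | Apart C (P i) (N i)}.ncard ≤
          K * w * (Nat.log 2 (s + n) + 1) ^ 34 * M := by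
  obtain ⟨K, hK⟩ := main_D
  refine ⟨4 * K, fun n s D hD hdeg => ?_⟩
  have hpos : 0 < D.card := Finset.card_pos.mpr hD
  obtain ⟨r, hr⟩ : ∃ r, r = Nat.sqrt D.card := ⟨_, rfl⟩
  have hr0 : 0 < r := by
    rw [hr]
    exact Nat.sqrt_pos.mpr hpos
  have h1 : r ^ 2 ≤ D.card := by
    rw [hr]
    exact Nat.sqrt_le' _
  have h2 : D.card ≤ 4 * r ^ 2 := by
    have h3 : D.card < (r + 1) ^ 2 := by
      rw [hr]
      exact Nat.lt_succ_sqrt' _
    have h4 : (r + 1) ^ 2 ≤ (2 * r) ^ 2 := Nat.pow_le_pow_left (by omega) 2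
    calc D.card ≤ (2 * r) ^ 2 := h3.le.trans h4
      _ = 4 * r ^ 2 := by ring
  have h3 : ∀ a, (D.filter (fun e => e.1 = a)).card ≤ r ∧
      (D.filter (fun e => e.2 = a)).card ≤ r := by
    intro a
    rw [hr, Nat.le_sqrt', Nat.le_sqrt']
    exact hdeg a
  obtain ⟨M, P, N, ρ, hM, h4, h5⟩ := hK n s r r D hr0 h3 h1 (by
    rw [← sq]
    exact h1)
  refine ⟨M, P, N, ρ, hM, h4, fun G _ C hC hcard w hw => ?_⟩
  have h6 := h5 G C hC hcard w hw
  calc D.card * {i | Apart C (P i) (N i)}.ncard ≤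
        4 * r ^ 2 * {i | Apart C (P i) (N i)}.ncard := Nat.mul_le_mul_right _ h2
    _ = 4 * (r ^ 2 * {i | Apart C (P i) (N i)}.ncard) := by ring
    _ ≤ 4 * (K * w * (Nat.log 2 (s + n) + 1) ^ 34 * M) := Nat.mul_le_mul_left _ h6
    _ = 4 * K * w * (Nat.log 2 (s + n) + 1) ^ 34 * M := by ring

end Pool.Agent.NEGD
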