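import Pool.Agent.Lib.MP_0087d5_lc.NEGD.BDef
import Pool.Agent.Lib.MP_0087d5_lc.NEGV.Subst
import Pool.Agent.Lib.MP_0087d5_lc.NEGT.FinB

/-!
The weight of the live part of a circuit, and the estimate for all circuits on matrices given by
a hard family of pairs.
-/

set_option autoImplicit false

namespace Pool.Agent.NEGD

open Pool.Agent.NEG Pool.Agent.NEGS Pool.Agent.NEGT Pool.Agent.NEGV

open Classical in
/-- a family of pairs of matrices which is hard for a part of the variables: the pairs are given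
by inputs over `I`, through a substitution which is constant outside of the blocks -/
def Fam (n s l0 A K : ℕ) (D : Set (Fin n × Fin n)) : Prop :=
  ∃ (I : Type) (sub : Fin n × Fin n → I ⊕ Bool) (Ix : Type) (_ : Fintype Ix) (_ : Nonempty Ix)
    (P N : Ix → I → Bool),
    (∀ e, e ∉ D → ∃ c, sub e = Sum.inr c) ∧
    (∀ i e, N i e = true → P i e = true) ∧ (∀ i, BPM n (pull sub (P i))) ∧
    (∀ i, ¬ BPM n (pull sub (N i))) ∧
    ∀ (G : Type) [Fintype G] (C : Circuit I G) (l : Lev C), Fintype.card G ≤ s → ∀ c : ℕ,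
      Quiet C l (37 / ((2 ^ 38 * l0 : ℕ) : ℝ)) (9 * (c : ℝ)) → Fintype.card (Slot C) ≤ c →
      A * (Finset.univ.filter (fun i => Differs C (P i) (N i))).card ≤
        K * c * Fintype.card Ix

section Weights

open Classical in
/-- the weight bounds the moves along pseudo-chains -/
theorem weight_quiet {J G : Type} [Fintype G] (C : Circuit J G) (hC : ∃ d, C.DepthLE d)
    {l0 : ℕ} (hl0 : 1 ≤ l0) {w : ℕ} (hw : Weight C w) :
    2 ^ (2 * l0) ≤ w ∨ ∃ (D : Circuit J G) (l : Lev D) (c : ℕ),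
      (∀ x y, Differs D x y ↔ Differs C x y) ∧
      Quiet D l (37 / ((2 ^ 38 * l0 : ℕ) : ℝ)) (9 * (c : ℝ)) ∧
      Fintype.card (Slot D) ≤ c ∧ c ≤ 18 * w := by
  have hlpos : (0 : ℝ) < ((2 ^ 38 * l0 : ℕ) : ℝ) := by
    have : 0 < 2 ^ 38 * l0 := Nat.mul_pos (by positivity) hl0
    exact_mod_cast this
  have hθ1 : 37 / ((2 ^ 38 * l0 : ℕ) : ℝ) ≤ 1 := by
    rw [div_le_one hlpos]
    have h1 : 37 ≤ 2 ^ 38 * l0 := by
      calc 37 ≤ 2 ^ 38 * 1 := by norm_num
        _ ≤ 2 ^ 38 * l0 := Nat.mul_le_mul_left _ hl0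
    exact_mod_cast h1
  have hθk : ((2 * l0 : ℕ) : ℝ) * (37 / ((2 ^ 38 * l0 : ℕ) : ℝ)) ≤ 1 := by
    rw [mul_div_assoc', div_le_one hlpos]
    have h1 : 2 * l0 * 37 ≤ 2 ^ 38 * l0 := by
      calc 2 * l0 * 37 = 74 * l0 := by ring
        _ ≤ 2 ^ 38 * l0 := Nat.mul_le_mul_right _ (by norm_num)
    exact_mod_cast h1
  obtain ⟨d, lev, hlev1, hlev2⟩ := hC
  let l : Lev C := ⟨lev, d, fun g => (hlev1 g).2, hlev2⟩
  rcases hw with ⟨t, m, ht, hm, rfl⟩ | ⟨r, rk, hrk, hr, rfl⟩ | ⟨hF, rfl⟩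
  · -- few gates
    refine Or.inr ⟨C, l, m * 2 ^ t + 1, fun _ _ => Iff.rfl, quiet_total C l t m ht hm hθ1, ?_,
      by omega⟩
    refine (card_slot C m hm).trans (Nat.add_le_add_right (Nat.mul_le_mul_left _ ?_) 1)
    exact ht.trans (Nat.lt_two_pow_self).le
  · -- ranks
    rcases Nat.lt_or_ge (2 * l0) ((Finset.range r).filter (fun j => wires C rk j ≠ 0)).card
      with hk | hk
    · -- many ranks
      left
      calc 2 ^ (2 * l0) ≤ 2 ^ ((Finset.range r).filter (fun j => wires C rk j ≠ 0)).card :=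
            Nat.pow_le_pow_right (by norm_num) hk.le
        _ ≤ _ := prod_large (fun j => wires C rk j) r
    · refine Or.inr ⟨C, l, _, fun _ _ => Iff.rfl, quiet_rank C l rk hrk r hr (2 * l0) hk hθ1 hθk,
        ?_, by omega⟩
      rw [card_slot_eq, sum_wires C rk r hr]
      exact sum_le_prod (fun j => wires C rk j) r
  · -- formulas
    obtain ⟨lev', hlev1', hlev2'⟩ := padded_depth C d ⟨lev, hlev1, hlev2⟩
    let l' : Lev (padded C) := ⟨lev', d, fun g => (hlev1' g).2, hlev2'⟩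
    have hW : Fintype.card (Σ s : {s // ¬ C.Plain s}, Fin (C.arity s)) =
        Nat.card {p : Σ g, Fin (C.arity g) // ¬ C.Plain p.1} := by
      have e : {p : Σ g, Fin (C.arity g) // ¬ C.Plain p.1} ≃
          Σ s : {s // ¬ C.Plain s}, Fin (C.arity s) :=
        Equiv.subtypeSigmaEquiv (fun g => Fin (C.arity g)) (fun g => ¬ C.Plain g)
      rw [Nat.card_congr e, Nat.card_eq_fintype_card]
    refine Or.inr ⟨padded C, l', 18 * Nat.card {p : Σ g, Fin (C.arity g) // ¬ C.Plain p.1} + 1,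
      differs_padded C, quiet_formula C hF l' _ hW.le hθ1, ?_, by omega⟩
    rw [Fintype.card_option]
    have h1 := card_sp_padded C hF
    omega

theorem weightOn_pos {J G : Type} {C : Circuit J G} {X : Set G} {w : ℕ}
    (hw : WeightOn C X w) : 1 ≤ w := by
  rcases hw with ⟨t, m, _, _, rfl⟩ | ⟨r, rk, _, _, rfl⟩ | ⟨_, rfl⟩
  · omega
  · exact Nat.one_le_iff_ne_zero.mpr (Finset.prod_ne_zero_iff.mpr (fun j _ => by omega))
  · omega

/-- the weight of a part of a circuit is the weight after the substitution -/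
theorem weight_subst {I J G : Type} [Finite G] (C : Circuit J G) (sub : J → I ⊕ Bool)
    (F : Set G) (v0 : G → Bool) (ho : C.out ∉ F) {w : ℕ} (hw : WeightOn C Fᶜ w) :
    Weight (subst C sub F v0 ho) w := by
  rcases hw with ⟨t, m, ht, hm, rfl⟩ | ⟨r, rk, hrk, hr, rfl⟩ | ⟨hF, rfl⟩
  · refine Or.inl ⟨t, m, ?_, fun g hg => hm g g.2 hg, rfl⟩
    have e1 : {g | ¬ (subst C sub F v0 ho).Plain g} = {g : {g // g ∉ F} | ¬ C.Plain g} := rfl
    rw [e1, ncard_subst F (fun g => ¬ C.Plain g)]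
    exact ht
  · refine Or.inr (Or.inl ⟨r, fun g => rk g, fun g i g' h => hrk g g.2 g' g'.2 i
      (subst_src_inr C sub F v0 ho g i g' h), fun g => hr g g.2, ?_⟩)
    refine Finset.prod_congr rfl (fun j _ => ?_)
    congr 1
    refine Nat.card_congr
      { toFun := fun p => ⟨⟨⟨p.1.1, p.2.1⟩, p.1.2⟩, p.2.2⟩
        invFun := fun p => ⟨⟨p.1.1.1, p.1.2⟩, p.1.1.2, p.2⟩
        left_inv := fun p => rfl
        right_inv := fun p => rfl }
  · refine Or.inr (Or.inr ⟨?_, ?_⟩)
    · rintro g ⟨a, i⟩ ⟨a', i'⟩ h h'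
      have h1 := subst_src_inr C sub F v0 ho a i g h
      have h2 := subst_src_inr C sub F v0 ho a' i' g h'
      have h3 := hF g g.2 ⟨a, i⟩ ⟨a', i'⟩ a.2 a'.2 h1 h2
      obtain ⟨a, ha⟩ := a
      obtain ⟨a', ha'⟩ := a'
      obtain ⟨h4, h5⟩ := Sigma.mk.inj h3
      subst h4
      obtain rfl := eq_of_heq h5
      rfl
    · congr 1
      refine Nat.card_congr
        { toFun := fun p => ⟨⟨⟨p.1.1, p.2.1⟩, p.1.2⟩, p.2.2⟩
          invFun := fun p => ⟨⟨p.1.1.1, p.1.2⟩, p.1.1.2, p.2⟩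
          left_inv := fun p => rfl
          right_inv := fun p => rfl }

end Weights

theorem apart_iff {I G : Type} (C : Circuit I G) (x y : I → Bool) :
    Apart C x y ↔ Differs C x y := by
  unfold Apart Differs
  push Not
  rfl

open Classical in
/-- a hard family gives the estimate for all circuits on matrices -/
theorem of_fam {n s l0 A K : ℕ} {D : Set (Fin n × Fin n)} (hl0 : 1 ≤ l0)
    (hA : A ≤ 2 ^ (2 * l0)) (hfam : Fam n s l0 A K D) :
    ∃ (M : ℕ) (P N : Fin M → Fin n × Fin n → Bool) (ρ : Fin n × Fin n → Bool), 1 ≤ M ∧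
      (∀ i, (∀ e, N i e = true → P i e = true) ∧ (∀ e, e ∉ D → P i e = ρ e ∧ N i e = ρ e) ∧
        PM n (P i) ∧ ¬ PM n (N i)) ∧
      ∀ (D' : Set (Fin n × Fin n)), (∀ e ∈ D, e ∈ D') →
        ∀ (G : Type) [Finite G] (C : Circuit (Fin n × Fin n) G), (∃ d, C.DepthLE d) →
        (Live C D' ρ).ncard ≤ s → ∀ w : ℕ, WeightOn C (Live C D' ρ) w →
        A * {i | Apart C (P i) (N i)}.ncard ≤ (18 * K + 1) * w * M := by
  obtain ⟨I, sub, Ix, _, _, P, N, hsub, hNP, hP, hN, hmain⟩ := hfam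
  let e : Fin (Fintype.card Ix) ≃ Ix := (Fintype.equivFin Ix).symm
  let ρ : Fin n × Fin n → Bool := pull sub (fun _ => false)
  have hρ : ∀ (x : I → Bool) (e), e ∉ D → pull sub x e = ρ e := by
    intro x e he
    obtain ⟨c, hc⟩ := hsub e he
    change pull sub x e = pull sub (fun _ => false) e
    unfold pull
    rw [hc]
  refine ⟨Fintype.card Ix, fun i => pull sub (P (e i)), fun i => pull sub (N (e i)), ρ,
    Fintype.card_pos, fun i => ⟨fun v => pull_mono sub (hNP (e i)) v,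
      fun v hv => ⟨hρ _ v hv, hρ _ v hv⟩, hP (e i), hN (e i)⟩, ?_⟩
  intro D' hD' G _ C hC hcard w hw
  have hG : Fintype G := Fintype.ofFinite G
  have htriv : {i | Apart C (pull sub (P (e i))) (pull sub (N (e i)))}.ncard ≤
      Fintype.card Ix := by
    refine (Set.ncard_le_ncard (Set.subset_univ _) (Set.toFinite _)).trans ?_
    rw [Set.ncard_univ, Nat.card_eq_fintype_card, Fintype.card_fin]
  obtain ⟨dp, hdp⟩ := hC
  -- the constant values
  obtain ⟨v0, hv0'⟩ := consistent_exists C hdp ρ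
  have hv0 : ∀ (x : I → Bool) (v : G → Bool), C.Consistent (pull sub x) v →
      ∀ g ∈ (Live C D' ρ)ᶜ, v g = v0 g := by
    intro x v hv g hg
    by_contra hne
    exact hg ⟨pull sub x, ρ, v, v0, fun e he => ⟨hρ x e (fun h => he (hD' e h)), rfl⟩, hv, hv0',
      hne⟩
  by_cases hout : C.out ∈ (Live C D' ρ)ᶜ
  · -- the output is constant
    have h0 : {i | Apart C (pull sub (P (e i))) (pull sub (N (e i)))} = ∅ := by
      rw [Set.eq_empty_iff_forall_notMem]
      rintro i ⟨v, w, hv, hw, hne⟩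
      exact hne ((hv0 _ v hv _ hout).trans (hv0 _ w hw _ hout).symm)
    rw [h0, Set.ncard_empty, Nat.mul_zero]
    exact Nat.zero_le _
  · obtain ⟨Fr, hFr⟩ : ∃ Fr, Fr = (Live C D' ρ)ᶜ := ⟨_, rfl⟩
    have hLive : Live C D' ρ = Frᶜ := by rw [hFr, compl_compl]
    rw [← hFr] at hv0 hout
    rw [hLive] at hcard hw
    let C' : Circuit I {g // g ∉ Fr} := subst C sub Fr v0 hout
    have hdiff : ∀ x y, Differs C (pull sub x) (pull sub y) → Differs C' x y := by
      intro x y hxy hC'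
      refine hxy (fun v w hv hw => ?_)
      exact hC' _ _ (subst_consistent C sub Fr v0 hout x v hv (hv0 x v hv))
        (subst_consistent C sub Fr v0 hout y w hw (hv0 y w hw))
    have hw' : Weight C' w := weight_subst C sub Fr v0 hout hw
    have hcard' : Fintype.card {g // g ∉ Fr} ≤ s := by
      rw [← Nat.card_eq_fintype_card]
      exact hcard
    rcases weight_quiet C' ⟨dp, subst_depth C sub Fr v0 hout hdp⟩ hl0 hw' with
      hbig | ⟨C'', l, c, hC'', hq, hslot, hcw⟩
    · calc A * {i | Apart C (pull sub (P (e i))) (pull sub (N (e i)))}.ncard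
          ≤ w * Fintype.card Ix := Nat.mul_le_mul (hA.trans hbig) htriv
        _ = 1 * w * Fintype.card Ix := by rw [Nat.one_mul]
        _ ≤ (18 * K + 1) * w * Fintype.card Ix :=
            Nat.mul_le_mul_right _ (Nat.mul_le_mul_right _ (by omega))
    · have h1 := hmain {g // g ∉ Fr} C'' l hcard' c hq hslot
      have h2 : {i | Apart C (pull sub (P (e i))) (pull sub (N (e i)))}.ncard ≤
          (Finset.univ.filter (fun i => Differs C'' (P i) (N i))).card := by
        rw [← Set.ncard_coe_finset]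
        rw [← Set.ncard_image_of_injective {i | Apart C (pull sub (P (e i)))
          (pull sub (N (e i)))} e.injective]
        refine Set.ncard_le_ncard ?_ (Set.toFinite _)
        rintro _ ⟨i, hi, rfl⟩
        rw [Finset.mem_coe, Finset.mem_filter]
        exact ⟨Finset.mem_univ _, (hC'' _ _).mpr (hdiff _ _ ((apart_iff _ _ _).mp hi))⟩
      calc A * {i | Apart C (pull sub (P (e i))) (pull sub (N (e i)))}.ncard
          ≤ A * (Finset.univ.filter (fun i => Differs C'' (P i) (N i))).card :=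
            Nat.mul_le_mul_left _ h2
        _ ≤ K * c * Fintype.card Ix := h1
        _ ≤ K * (18 * w) * Fintype.card Ix :=
            Nat.mul_le_mul_right _ (Nat.mul_le_mul_left _ hcw)
        _ = 18 * K * w * Fintype.card Ix := by ring
        _ ≤ (18 * K + 1) * w * Fintype.card Ix :=
            Nat.mul_le_mul_right _ (Nat.mul_le_mul_right _ (by omega))

/-- a pair which differs in one variable -/
theorem one_pair {n : ℕ} (e0 : Fin n × Fin n) : ∃ P N : Fin n × Fin n → Bool,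
    (∀ e, N e = true → P e = true) ∧ (∀ e, e ≠ e0 → N e = P e) ∧ PM n P ∧ ¬ PM n N := by
  classical
  refine ⟨fun e => decide (e.2 = Equiv.swap e0.1 e0.2 e.1),
    fun e => decide (e ≠ e0 ∧ e.2 = Equiv.swap e0.1 e0.2 e.1), fun e h => ?_, fun e h => ?_,
    ⟨Equiv.swap e0.1 e0.2, fun a => ?_⟩, ?_⟩
  · rw [decide_eq_true_eq] at h ⊢
    exact h.2
  · simp only [ne_eq, h, not_false_eq_true, true_and]
  · rw [decide_eq_true_eq]
  · rintro ⟨σ, hσ⟩
    have h1 := hσ e0.1
    rw [decide_eq_true_eq, Equiv.swap_apply_left] at h1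
    exact h1.1 (Prod.ext rfl h1.2)

end Pool.Agent.NEGD
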